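import Pool.Agent.TH892.LW.N10

/-!
The Liouville function at `F(m) + k` in windows of BOUNDED length at the real zeros of `F + k`,
for every integer polynomial `F` of degree `d ≥ 2` and almost all `k`.

Method: for `X^(1 - 1/d) ≤ Y ≤ C X` the second moment over all `|k| ≤ X` of the sum of
`λ(F(m) + k)` over the values `0 < F(m) + k ≤ Y` is at most `C X^(1/d) Y`, up to a saving of an
arbitrary power of the logarithm in the trivial bound: away from the diagonal an inverse theorem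
for the Weyl sums of `F(m + δ) - F(m)` (`Pool/Agent/TH204/WR`) and Davenport's bound for the
exponential sum of `λ` on the remaining arcs leave nothing. So the sum is `o` of its length
for all but `C X / H` of `k` already at the height `Y = H X^(1 - 1/d)`, where it has about `H`
terms. Along a geometric grid of heights the exceptional sets form a geometric series, and
the sum changes by little between two consecutive heights; a window is a difference of two heights
on each side of the zero.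
-/

set_option autoImplicit false

namespace Pool.Agent.Results.MP_892e4c_nt.BoundedWindows

open Finset
open scoped Polynomial

/-- the Liouville function on the integers: `(-1)^Ω(|v|)` for `v ≠ 0`, and `0` at `0` -/
noncomputable def lam (v : ℤ) : ℤ := if v = 0 then 0 else (-1) ^ ArithmeticFunction.cardFactors v.natAbs

lemma lam_cast (v : ℤ) : ((lam v : ℤ) : ℝ) = Pool.Agent.TH892.LW.lam v := by
  unfold lam Pool.Agent.TH892.LW.lam
  split_ifs <;> push_cast <;> rfl

lemma rt_eq (k x : ℕ) (d : ℕ) (hd : d = k + 1) :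
    Pool.Agent.TH204.WR.rt k x ^ k = (x : ℝ) ^ (1 - 1 / (d : ℝ)) := by
  unfold Pool.Agent.TH204.WR.rt
  rw [← Real.rpow_natCast, ← Real.rpow_mul (Nat.cast_nonneg _)]
  congr 1
  rw [hd]
  push_cast
  have : (k : ℝ) + 1 ≠ 0 := by positivity
  field_simp
  ring

/-- **The Liouville function at `F(m) + k` in bounded windows at the real zeros, for almost all
`k`.** Let `F` be an integer polynomial of degree `d ≥ 2`, let `κ, ε, η > 0` and let `W`, `Q` be
natural numbers. There are `C > 0` and `X₀` such that for all `X ≥ X₀` and all real `H` with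
`1 ≤ H ≤ (log X)^W` all but at most `C X / H` of the integers `k` with `η X ≤ |k| ≤ X` have
the following properties.
* In ALL windows `a < m ≤ b` with `b - a ≥ H` on which `|F(m) + k| ≤ κ (b - a) X^(1 - 1/d)` and
  for all residue classes `r` modulo `q ≤ Q` the sums of `λ(F(m) + k)` and of `μ(|F(m) + k|)`
  over the `m ≡ r` modulo `q` in the window are at most `ε (b - a)` in absolute value.
* If `F + k` takes negative and positive values, then for `s = 1` and for `s = -1` there are an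
  integer `m` with `0 < F(m) + k ≤ C H X^(1 - 1/d)` and `λ(F(m) + k) = s` and an integer `m` with
  `-C H X^(1 - 1/d) ≤ F(m) + k < 0` and `λ(F(m) + k) = s`. -/
theorem result (F : ℤ[X]) (hF : 2 ≤ F.natDegree) (κ ε η : ℝ) (hκ : 0 < κ) (hε : 0 < ε) (hη : 0 < η) (W Q : ℕ) :
    ∃ C : ℝ, 0 < C ∧ ∃ X₀ : ℕ, ∀ X : ℕ, X₀ ≤ X → ∀ H : ℝ, 1 ≤ H → H ≤ Real.log X ^ W →
    ∃ Bad : Finset ℤ, (#Bad : ℝ) ≤ C * X / H ∧ ∀ k : ℤ, η * X ≤ |(k : ℝ)| → |(k : ℝ)| ≤ X → k ∉ Bad →
      (∀ a b : ℤ, H ≤ (b : ℝ) - a →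
        (∀ m ∈ Ioc a b, |((F.eval m + k : ℤ) : ℝ)| ≤ κ * ((b : ℝ) - a) * (X : ℝ) ^ (1 - 1 / (F.natDegree : ℝ))) →
        ∀ (q : ℕ) (r : ℤ), 1 ≤ q → q ≤ Q →
          |∑ m ∈ (Ioc a b).filter (fun m => (q : ℤ) ∣ m - r), (lam (F.eval m + k) : ℝ)| ≤ ε * ((b : ℝ) - a) ∧
          |∑ m ∈ (Ioc a b).filter (fun m => (q : ℤ) ∣ m - r),
            ((ArithmeticFunction.moebius (F.eval m + k).natAbs : ℤ) : ℝ)| ≤ ε * ((b : ℝ) - a)) ∧
      ((∃ m : ℤ, F.eval m + k < 0) → (∃ m : ℤ, 0 < F.eval m + k) → ∀ s : ℤ, (s = 1 ∨ s = -1) →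
        (∃ m : ℤ, 0 < F.eval m + k ∧
          ((F.eval m + k : ℤ) : ℝ) ≤ C * H * (X : ℝ) ^ (1 - 1 / (F.natDegree : ℝ)) ∧ lam (F.eval m + k) = s) ∧
        (∃ m : ℤ, F.eval m + k < 0 ∧
          -(C * H * (X : ℝ) ^ (1 - 1 / (F.natDegree : ℝ))) ≤ ((F.eval m + k : ℤ) : ℝ) ∧ lam (F.eval m + k) = s)) := by
  obtain ⟨d, hd⟩ : ∃ d, F.natDegree = d + 1 := ⟨F.natDegree - 1, by omega⟩
  obtain ⟨C, hC, X₀, h0⟩ := Pool.Agent.TH892.LW.main_bd d (by omega) F hd κ ε η hκ hε hη W Q
  refine ⟨C, hC, X₀, fun N hN H hH1 hHW => ?_⟩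
  obtain ⟨Bad, -, hB2, hB3⟩ := h0 N hN H hH1 hHW
  have hrt := rt_eq d N F.natDegree hd
  refine ⟨Bad, by rw [mul_div_assoc]; exact hB2, fun k hk1 hk2 hkB => ?_⟩
  have hkI : k ∈ Icc (-(N : ℤ)) N := by
    rw [mem_Icc, ← abs_le]
    rw [← Int.cast_abs] at hk2
    exact_mod_cast hk2
  obtain ⟨g1, g2⟩ := hB3 k hkI hk1 hkB
  rw [hrt] at g1 g2
  refine ⟨fun a b hab hv q r hq hqQ => ?_, fun hneg hpos s hs => ?_⟩
  · simp only [lam_cast]
    exact g1 a b hab (fun m hm => by rw [← mul_assoc]; exact hv m hm) q r hq hqQ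
  · have hs' : ((s : ℤ) : ℝ) = 1 ∨ ((s : ℤ) : ℝ) = -1 := by
      rcases hs with h | h
      · left; rw [h]; norm_num
      · right; rw [h]; norm_num
    obtain ⟨⟨m1, p1, p2, p3⟩, m2, q1, q2, q3⟩ := g2 hneg hpos s hs'
    rw [← lam_cast] at p3 q3
    refine ⟨⟨m1, p1, by rw [mul_assoc]; exact p2, by exact_mod_cast p3⟩, m2, q1, ?_, by exact_mod_cast q3⟩
    rw [mul_assoc]
    linarith

end Pool.Agent.Results.MP_892e4c_nt.BoundedWindows
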