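import Pool.Agent.TH872.Sq.W18

set_option autoImplicit false

namespace Pool.Agent.Results.MP_892e4c_nt.DigitRestrictedArguments
open Finset
open Pool.Agent.TH872.Sq (qv dg ld SD main_ev ev liF nice_liF ev_li_prod almost)

/-- the integers below `b ^ k` whose `i`-th digit in base `b` belongs to `D i` for all `i < k` -/
def S (b : ℕ) (D : ℕ → Finset ℕ) (k : ℕ) : Finset ℕ := (range (b ^ k)).filter (fun n : ℕ => ∀ i < k, n / b ^ i % b ∈ D i)

/-- the Liouville function on the integers -/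
noncomputable def lam (m : ℤ) : ℝ := if m = 0 then 0 else (-1) ^ ArithmeticFunction.cardFactors m.natAbs

/-- the polynomial `∏ (κ j x ^ 2 + β j x + c j)` -/
noncomputable def pol {r : ℕ} (κ β c : Fin r → ℤ) : Polynomial ℤ :=
  ∏ j, (Polynomial.C (κ j) * Polynomial.X ^ 2 + Polynomial.C (β j) * Polynomial.X + Polynomial.C (c j))

/-- the degree of `κ x ^ 2 + β x` -/
def deg (κ : ℤ) : ℕ := if κ = 0 then 1 else 2

/-- **The Liouville function at products of linear and quadratic polynomials, over integers with restricted digits and with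
arbitrary bounded coefficients.** -/
theorem result (b : ℕ) (hb : 2 ≤ b) (r : ℕ) (hr : 1 ≤ r) (κ β : Fin r → ℤ) (hκ : ∀ j, κ j ≠ 0 ∨ β j ≠ 0) (F U : ℕ) :
    ∃ K₀ : ℕ, ∀ k : ℕ, K₀ ≤ k → ∀ D : ℕ → Finset ℕ, (∀ i < k, D i ⊆ range b ∧ 2 ≤ (D i).card) →
    ∀ σ : Fin r → ℤ, (∀ j, σ j = 1 ∨ σ j = -1) →
    ∀ X : Fin r → ℕ, (∀ j, b ^ (deg (κ j) * k) ≤ X j ∧ X j ≤ F * b ^ (deg (κ j) * k)) →
    ∀ G : ℕ → ℝ, (∀ n, |G n| ≤ 1) →
    (((Fintype.piFinset (fun j : Fin r => Icc 1 (X j))).filter (fun c : Fin r → ℕ =>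
      ((S b D k).card : ℝ) / (k : ℝ) ^ U <
        |∑ n ∈ S b D k, G n * lam ((pol κ β (fun j => σ j * (c j : ℤ))).eval (n : ℤ))|)).card : ℝ) ≤
      (∏ j, (X j : ℝ)) / (k : ℝ) ^ U := by
  classical
  have hld : ∀ j, ld (κ j) (β j) ≠ 0 := by
    intro j
    unfold ld
    split_ifs with h
    · exact (hκ j).resolve_left (fun h' => h' h)
    · exact h
  obtain ⟨K₀, h1⟩ := main_ev b hb r hr κ β hld (fun _ => liF) (fun _ => nice_liF) F (2 * U)
  refine ⟨K₀ + 1, fun k hk D hD σ hσ X hX G hG => ?_⟩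
  have h2 := h1 k (by omega) D hD σ hσ X hX G hG
  apply almost _ _ _ k U (by omega) h2
  intro c _ hc
  have h3 : ∀ n ∈ SD b D k, G n * ∏ j, ev liF (qv (κ j) (β j) n + σ j * (c j : ℤ)) =
      G n * lam ((pol κ β (fun j => σ j * (c j : ℤ))).eval (n : ℤ)) := by
    intro n _
    rw [← ev_li_prod]
    unfold pol
    rw [Polynomial.eval_prod]
    simp only [Polynomial.eval_add, Polynomial.eval_mul, Polynomial.eval_pow, Polynomial.eval_C, Polynomial.eval_X]
    rfl
  rw [sum_congr rfl h3, abs_mul, abs_of_nonneg (by positivity), one_div_mul_eq_div]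
  have hS : (0 : ℝ) < (SD b D k).card := by
    rcases Nat.eq_zero_or_pos (SD b D k).card with h | h
    · exfalso
      have h4 : S b D k = ∅ := card_eq_zero.1 h
      rw [h4] at hc
      simp at hc
    · exact_mod_cast h
  rw [lt_div_iff₀ hS, one_div, inv_mul_eq_div]
  exact hc

end Pool.Agent.Results.MP_892e4c_nt.DigitRestrictedArguments
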