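import Mathlib
import Pool.Agent.TH890.DV.B3
import Pool.Agent.W78.GS.Fin

/-!
The values of a completely multiplicative function `g` with values `1`, `-1` at the values of a monic
quadratic polynomial: both signs at near-squarefree values, for at least `N / (log N)^(log 2 + ε)` of
the integers `n ≤ N`.

The starting file `MonicQuadratic` of this problem has the bound `N^(1-ε)` (for the Liouville function),
the starting file `MonicQuadraticParities` of `MP_51e72e_nt` has `N / (log N)^(2 log 2 + ε)`.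
That a positive proportion of the pairs `(d, d')` has a given sign is a theorem of the starting library
(`Pool.Agent.W78.GS`). The passage from the pairs to the integers `n` is new (`Pool/Agent/TH890/DV`).
-/

set_option autoImplicit false

namespace Pool.Agent.Results.MP_892e4c_nt.MonicQuadraticsLogTwo

/-- many values `x^2+tx+c` have the form `a^2 m` with `1 ≤ a ≤ B`, `m` squarefree and `g m = s`: at
least `N / (log N)^(log 2 + ε)` integers `1 ≤ n ≤ N` for every `ε > 0` and all large `N`, and at least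
`κ N` products `d d'`, `d, d' ≤ N`, with some `κ > 0` and all large `N` -/
def Many (t c : ℤ) (B : ℕ) (g : ℕ → ℤ) (s : ℤ) : Prop :=
  (∀ ε : ℝ, 0 < ε → ∃ N₀ : ℕ, ∀ N : ℕ, N₀ ≤ N →
    (N : ℝ) / Real.log N ^ (Real.log 2 + ε) ≤
      (Set.ncard {n : ℕ | 1 ≤ n ∧ n ≤ N ∧ ∃ a m : ℕ, 1 ≤ a ∧ a ≤ B ∧
        (n : ℤ) ^ 2 + t * n + c = a ^ 2 * m ∧ Squarefree m ∧ g m = s} : ℝ)) ∧
  ∃ κ : ℝ, 0 < κ ∧ ∃ N₀ : ℕ, ∀ N : ℕ, N₀ ≤ N → κ * N ≤
    (Set.ncard {q : ℕ × ℕ | 1 ≤ q.1 ∧ q.1 ≤ N ∧ 1 ≤ q.2 ∧ q.2 ≤ N ∧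
      (∃ n : ℤ, (q.1 : ℤ) * q.2 = n ^ 2 + t * n + c) ∧
      ∃ a m : ℕ, 1 ≤ a ∧ a ≤ B ∧ q.1 * q.2 = a ^ 2 * m ∧ Squarefree m ∧ g m = s} : ℝ)

open Pool.Agent.W78.GS in
lemma many_of {t c : ℤ} (hns : ¬ IsSquare (t ^ 2 - 4 * c)) {B : ℕ} {g : ℕ → ℤ} {s : ℤ}
    (h : Con t c (fun m => ∃ a b : ℕ, 1 ≤ a ∧ a ≤ B ∧ m = a ^ 2 * b ∧ Squarefree b ∧ g b = s)) :
    Many t c B g s := by
  refine ⟨fun ε hε => ?_, h.2⟩
  obtain ⟨N₀, h1⟩ := Pool.Agent.TH890.DV.upgrade (t := t) (c := c)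
    (P := fun m => ∃ a b : ℕ, 1 ≤ a ∧ a ≤ B ∧ m = a ^ 2 * b ∧ Squarefree b ∧ g b = s) hns h.2 ε hε
  refine ⟨N₀, fun N hN => (h1 N hN).trans ?_⟩
  refine Nat.cast_le.2 (Set.ncard_le_ncard ?_ ((Set.finite_Icc 1 N).subset fun n hn => ⟨hn.1, hn.2.1⟩))
  rintro n ⟨h3, h4, m, hm, a, b, h5, h6, h7, h8⟩
  refine ⟨h3, h4, a, b, h5, h6, ?_, h8⟩
  rw [hm, h7]
  push_cast
  ring

open Pool.Agent.W78.GS in
/-- Let `f = x^2+tx+c` have nonsquare discriminant and let `g` be completely multiplicative with values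
`1`, `-1` on the positive integers, either the Liouville function or equal to `-1` at some positive
value of the form `x^2+txy+cy^2`. Then there is `B` such that for both signs `s` many values of `f` are
`a^2 m` with `1 ≤ a ≤ B`, `m` squarefree and `g m = s`. One can take `B = 1` if no value of `f` is
divisible by `4` or by the square of a prime dividing the discriminant. -/
theorem result (t c : ℤ) (hns : ¬ IsSquare (t ^ 2 - 4 * c)) (g : ℕ → ℤ)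
    (hmul : ∀ m n : ℕ, m ≠ 0 → n ≠ 0 → g (m * n) = g m * g n)
    (hpm : ∀ n : ℕ, n ≠ 0 → g n = 1 ∨ g n = -1)
    (hg : (∀ n : ℕ, n ≠ 0 → g n = (-1) ^ ArithmeticFunction.cardFactors n) ∨
      ∃ (x y : ℤ) (m : ℕ), m ≠ 0 ∧ x ^ 2 + t * x * y + c * y ^ 2 = m ∧ g m = -1) :
    ∃ B : ℕ, ((∀ l : ℕ, l.Prime → (l : ℤ) ∣ 2 * (t ^ 2 - 4 * c) →
        ∀ n : ℤ, ¬ (l : ℤ) ^ 2 ∣ n ^ 2 + t * n + c) → B = 1) ∧
      ∀ s : ℤ, s = 1 ∨ s = -1 → Many t c B g s := by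
  classical
  obtain ⟨g', hg'⟩ : ∃ g' : ℕ → ℤ, g' = fun n => if n = 0 then 1 else g n := ⟨_, rfl⟩
  have e0 : ∀ n : ℕ, n ≠ 0 → g' n = g n := fun n hn => by rw [hg']; simp [hn]
  have hPm : Pm g' := by
    refine ⟨fun {m n} hm hn => ?_, fun n => ?_⟩
    · rw [e0 _ hm, e0 _ hn, e0 _ (mul_ne_zero hm hn), hmul m n hm hn]
    · by_cases hn : n = 0
      · left; rw [hg']; simp [hn]
      · rw [e0 _ hn]; exact hpm n hn
  have hval : Val g' t c := by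
    rcases hg with h | ⟨x, y, m, hm, h1, h2⟩
    · obtain ⟨x, y, m, hm, h1, h2⟩ := val_univ hns
      refine ⟨x, y, m, hm, h1, ?_⟩
      rw [gS_univ] at h2
      rw [e0 _ hm, h m hm]
      exact h2
    · exact ⟨x, y, m, hm, h1, by rw [e0 _ hm]; exact h2⟩
  have hfun : ∀ (B : ℕ) (s : ℤ), (fun m : ℕ => ∃ a b : ℕ, 1 ≤ a ∧ a ≤ B ∧ m = a ^ 2 * b ∧
      Squarefree b ∧ g' b = s) = (fun m : ℕ => ∃ a b : ℕ, 1 ≤ a ∧ a ≤ B ∧ m = a ^ 2 * b ∧
      Squarefree b ∧ g b = s) := by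
    intro B s
    funext m
    refine propext ⟨?_, ?_⟩
    · rintro ⟨a, b, h1, h2, h3, h4, h5⟩
      exact ⟨a, b, h1, h2, h3, h4, by rw [← e0 _ h4.ne_zero]; exact h5⟩
    · rintro ⟨a, b, h1, h2, h3, h4, h5⟩
      exact ⟨a, b, h1, h2, h3, h4, by rw [e0 _ h4.ne_zero]; exact h5⟩
  by_cases hG : ∀ l : ℕ, l.Prime → (l : ℤ) ∣ 2 * (t ^ 2 - 4 * c) →
        ∀ n : ℤ, ¬ (l : ℤ) ^ 2 ∣ n ^ 2 + t * n + c
  · refine ⟨1, fun _ => rfl, fun s hs => many_of hns ?_⟩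
    have h := sqf_con (t := t) (c := c) hPm ⟨hns, hG⟩ hval s hs
    rw [← hfun]
    have e : (fun m : ℕ => ∃ a b : ℕ, 1 ≤ a ∧ a ≤ 1 ∧ m = a ^ 2 * b ∧ Squarefree b ∧ g' b = s) =
        fun m => Squarefree m ∧ g' m = s := by
      funext m
      refine propext ⟨?_, fun hm => ⟨1, m, le_rfl, le_rfl, by ring, hm⟩⟩
      rintro ⟨a, b, h3, h4, h5, h6⟩
      have : a = 1 := by omega
      subst this
      rw [one_pow, one_mul] at h5
      rw [h5]; exact h6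
    rw [e]
    exact h
  · obtain ⟨B, hB⟩ := bnd_con (t := t) (c := c) hPm hns hval
    refine ⟨B, fun h => absurd h hG, fun s hs => many_of hns ?_⟩
    rw [← hfun]
    exact hB s hs

end Pool.Agent.Results.MP_892e4c_nt.MonicQuadraticsLogTwo
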