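import Pool.Agent.TH893.PC.Short

/-!
# The Liouville function at polynomial values with arguments in bounded intervals, for almost all translates

The input is the theorem of Matomaki, Radziwill and Tao on exponential sums with the Liouville function in almost all
short intervals, in the form of `Pool.Agent.TH823.MRS` (helper823), which rests on the starting files
(`Pool.Agent.H376R2`, `Pool.Agent.H970R2`, `Pool.Agent.H807R2`, `Pool.Agent.H373R2` and others).

From Mathlib: `ArithmeticFunction.cardFactors n`: the number of the prime factors of `n` with multiplicity;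
`ArithmeticFunction.moebius`: the Moebius function; `Polynomial.eval x f`: the value `f(x)`; `Polynomial.natDegree`:
the degree; `Finset.Ioc Y X`: the integers `n` with `Y < n ≤ X`; `Finset.Icc 1 H`: the integers from `1` to `H`.
-/

set_option autoImplicit false

namespace Pool.Agent.Results.MP_892e4c_nt.ShortWindowsAlmostAllShifts

open Finset Polynomial

/-- The Liouville function on the integers, `λ(-m) = λ(m)` and `λ(0) = 0`, with complex values. -/
noncomputable def lam (m : ℤ) : ℂ := if m = 0 then 0 else (-1 : ℂ) ^ ArithmeticFunction.cardFactors m.natAbs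

/-- The Moebius function on the integers, `μ(-m) = μ(m)` and `μ(0) = 0`, with complex values. -/
noncomputable def mob (m : ℤ) : ℂ := ((ArithmeticFunction.moebius m.natAbs : ℤ) : ℂ)

/-- `e(t) = exp(2 π i t)` -/
noncomputable def e (t : ℝ) : ℂ := Complex.exp (2 * Real.pi * Complex.I * t)

/-- The sum of `e(g(n)) F(f(n) + h)` over the `n` with `x < n ≤ x + K` and `n ≡ a` modulo `q`. -/
noncomputable def S (F : ℤ → ℂ) (f : ℤ[X]) (g : ℝ[X]) (h : ℤ) (q a x K : ℕ) : ℂ :=
  ∑ n ∈ (Ioc x (x + K)).filter (fun n => n ≡ a [MOD q]), e (g.eval (n : ℝ)) * F (f.eval (n : ℤ) + h)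

open Pool.Agent.TH893.PC
open Pool.Agent.H807R2.Dav (ee norm_ee ee_add ee_int ee_pow ee_zero)
open Pool.Agent.H373R2.T7 (exI liR liR_norm)
open Pool.Agent.TH823.MRS (liR_E mu_E mu_le)

lemma lam_le (m : ℤ) : ‖lam m‖ ≤ 1 := by
  unfold lam
  split_ifs
  · simp
  · rw [norm_pow, norm_neg, norm_one, one_pow]

lemma mob_le (m : ℤ) : ‖mob m‖ ≤ 1 := mu_le _

lemma lam_base : Base lam := by
  have h1 : lam = fun m => exI liR m + exI liR (-m) := by
    funext m
    unfold lam exI liR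
    rcases lt_trichotomy m 0 with h | h | h
    · rw [if_neg h.ne, if_neg (by omega), if_pos (by omega), zero_add]
      congr 2
      omega
    · rw [if_pos h, if_neg (by omega), if_neg (by omega), add_zero]
    · rw [if_neg h.ne', if_pos (by omega), if_neg (by omega), add_zero]
      congr 2
      omega
  rw [h1]
  exact (base_exI liR_norm liR_E).add (base_exI liR_norm liR_E).neg

lemma mob_base : Base mob := by
  have h1 : mob = fun m => exI (fun n => ((ArithmeticFunction.moebius n : ℤ) : ℂ)) m +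
      exI (fun n => ((ArithmeticFunction.moebius n : ℤ) : ℂ)) (-m) := by
    funext m
    unfold mob exI
    rcases lt_trichotomy m 0 with h | h | h
    · rw [if_neg (by omega), if_pos (by omega), zero_add]
      congr 3
      omega
    · rw [if_neg (by omega), if_neg (by omega), add_zero, h]
      simp
    · rw [if_pos (by omega), if_neg (by omega), add_zero]
      congr 3
      omega
  rw [h1]
  exact (base_exI mu_le mu_E).add (base_exI mu_le mu_E).neg

/-- the phases with an additional linear term -/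
noncomputable def tw (g : ℝ[X]) (q b : ℕ) : ℝ[X] := g + C ((b : ℝ) / q) * X

lemma tw_deg {g : ℝ[X]} {d : ℕ} (hd : 1 ≤ d) (hg : g.natDegree ≤ d) (q b : ℕ) : (tw g q b).natDegree ≤ d := by
  unfold tw
  refine (natDegree_add_le _ _).trans (max_le hg ?_)
  exact ((natDegree_C_mul_le _ _).trans natDegree_X_le).trans hd

/-- the progressions -/
lemma S_le (F : ℤ → ℂ) (f : ℤ[X]) (g : ℝ[X]) (M : ℤ) (i : ℕ) {q : ℕ} (hq : 1 ≤ q) (a x K : ℕ) :
    (q : ℝ) * ‖S F f g (M + i) q a x K‖ ≤ ∑ b ∈ range q, ‖∑ k ∈ Icc 1 K, ee ((tw g q b).eval (((x : ℤ) + (k : ℤ) : ℤ) : ℝ)) *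
        F (f.eval ((x : ℤ) + (k : ℤ)) + M + (i : ℤ))‖ := by
  have hq0 : (0 : ℝ) < q := by exact_mod_cast hq
  have e0 : ∀ (g' : ℝ[X]), ∑ k ∈ Icc 1 K, ee (g'.eval (((x : ℤ) + (k : ℤ) : ℤ) : ℝ)) * F (f.eval ((x : ℤ) + (k : ℤ)) + M + (i : ℤ)) =
      ∑ n ∈ Ioc x (x + K), ee (g'.eval ((n : ℤ) : ℝ)) * F (f.eval (n : ℤ) + M + (i : ℤ)) := by
    intro g'
    have e1 : Ioc x (x + K) = (Icc 1 K).image (fun k => x + k) := by
      ext n
      simp only [mem_Ioc, mem_image, mem_Icc]
      constructor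
      · intro h
        exact ⟨n - x, by omega, by omega⟩
      · rintro ⟨k, hk, rfl⟩
        omega
    rw [e1, sum_image (fun a _ b _ hab => by
      have : x + a = x + b := hab
      omega)]
    refine sum_congr rfl fun k _ => ?_
    push_cast
    rfl
  have hdvd : ∀ n : ℕ, q ∣ n + a * (q - 1) ↔ n ≡ a [MOD q] := by
    intro n
    obtain ⟨r, rfl⟩ : ∃ r, q = r + 1 := ⟨q - 1, by omega⟩
    rw [Nat.add_sub_cancel]
    have h1 : n + a * r ≡ 0 [MOD (r + 1)] ↔ n ≡ a [MOD (r + 1)] := by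
      have h2 : a + a * r ≡ 0 [MOD (r + 1)] := by
        rw [Nat.modEq_zero_iff_dvd]
        exact ⟨a, by ring⟩
      constructor
      · intro h3
        exact Nat.ModEq.add_right_cancel' (a * r) (h3.trans h2.symm)
      · intro h3
        exact (Nat.ModEq.add_right (a * r) h3).trans h2
    rw [← h1, Nat.modEq_zero_iff_dvd]
  have key : (q : ℂ) * S F f g (M + i) q a x K = ∑ b ∈ range q, ee (((a * (q - 1) : ℕ) : ℝ) * ((b : ℝ) / q)) *
      ∑ k ∈ Icc 1 K, ee ((tw g q b).eval (((x : ℤ) + (k : ℤ) : ℤ) : ℝ)) * F (f.eval ((x : ℤ) + (k : ℤ)) + M + (i : ℤ)) := by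
    simp only [e0, mul_sum]
    rw [sum_comm]
    unfold S
    rw [sum_filter, mul_sum]
    refine sum_congr rfl fun n _ => ?_
    have h1 : ∀ b ∈ range q, ee (((a * (q - 1) : ℕ) : ℝ) * ((b : ℝ) / q)) * (ee ((tw g q b).eval ((n : ℤ) : ℝ)) *
        F (f.eval (n : ℤ) + M + (i : ℤ))) =
        ee (((n + a * (q - 1) : ℕ) : ℝ) * ((b : ℝ) / q)) * (ee (g.eval (n : ℝ)) * F (f.eval (n : ℤ) + M + (i : ℤ))) := by
      intro b _
      have h2 : (tw g q b).eval ((n : ℤ) : ℝ) = g.eval (n : ℝ) + (b : ℝ) / q * n := by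
        unfold tw
        simp
      rw [h2, ← mul_assoc, ← mul_assoc, ← ee_add, ← ee_add]
      congr 2
      push_cast
      ring
    rw [sum_congr rfl h1, ← sum_mul, detect hq]
    by_cases h2 : n ≡ a [MOD q]
    · rw [if_pos h2, if_pos ((hdvd n).2 h2), ← add_assoc]
      rfl
    · rw [if_neg h2, if_neg (fun h3 => h2 ((hdvd n).1 h3))]
      simp
  have h4 : (q : ℝ) * ‖S F f g (M + i) q a x K‖ = ‖(q : ℂ) * S F f g (M + i) q a x K‖ := by
    rw [norm_mul, Complex.norm_natCast]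
  rw [h4, key]
  refine (norm_sum_le _ _).trans (le_of_eq ?_)
  refine sum_congr rfl fun b _ => ?_
  rw [norm_mul, norm_ee, one_mul]

lemma one_function {F : ℤ → ℂ} (hF : ∀ m, ‖F m‖ ≤ 1) (hB : Base F) (f : ℤ[X]) (hf : 1 ≤ f.natDegree) (B : ℕ) (ε : ℝ) (hε : 0 < ε) :
    ∃ C K₀ N₀ : ℕ, ∀ N K H : ℕ, N₀ ≤ N → K₀ ≤ K → K ≤ N → C * N ^ (f.natDegree - 1) ≤ H → H ≤ B * N ^ f.natDegree →
      ∀ M : ℤ, |M| ≤ B * N ^ f.natDegree → ∀ g : ℝ[X], g.natDegree ≤ f.natDegree → ∀ q a : ℕ, 1 ≤ q →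
        ∑ i ∈ Icc 1 H, ∑ x ∈ Icc 1 N, ‖S F f g (M + i) q a x K‖ ≤ ε * K * N * H := by
  obtain ⟨C, K₀, N₀, h⟩ := short hF hB B hf hε
  refine ⟨C, K₀, N₀, fun N K H hN hK hKN hH hHB M hM g hg q a hq => ?_⟩
  have hq0 : (0 : ℝ) < q := by exact_mod_cast hq
  have h1 : (q : ℝ) * ∑ i ∈ Icc 1 H, ∑ x ∈ Icc 1 N, ‖S F f g (M + i) q a x K‖ ≤ q * (ε * K * N * H) := by
    rw [mul_sum]
    simp only [mul_sum]
    refine (sum_le_sum fun i _ => sum_le_sum fun x _ => S_le F f g M i hq a x K).trans ?_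
    rw [sum_congr rfl fun i _ => sum_comm, sum_comm]
    refine (sum_le_sum fun b _ => h N hN K hK hKN H hH hHB M hM (tw g q b) (tw_deg hf hg _ _)).trans (le_of_eq ?_)
    rw [sum_const, card_range, nsmul_eq_mul]
  exact le_of_mul_le_mul_left h1 hq0

/-- Let `f` be a nonconstant polynomial with integer coefficients, of degree `d`, and let `B` and `ε > 0` be fixed.
There are constants `C` and `K₀` such that for all large `N`, all `K` with `K₀ ≤ K ≤ N` (so `K` may be bounded), all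
`H` with `C N ^ (d - 1) ≤ H ≤ B N ^ d`, all integers `M` with `|M| ≤ B N ^ d`, all real polynomials `g` of degree at
most `d` and all progressions `a` modulo `q`, the mean over the `x ≤ N` and the `h = M + i` in `(M, M + H]` of the
absolute value of the sum of `e(g(n)) λ(f(n) + h)` over the `n` in `(x, x + K]` with `n ≡ a` modulo `q` is at most
`ε K`. The same holds for the Moebius function. -/
theorem result (f : ℤ[X]) (hf : 1 ≤ f.natDegree) (B : ℕ) (ε : ℝ) (hε : 0 < ε) :
    ∃ C K₀ N₀ : ℕ, ∀ N K H : ℕ, N₀ ≤ N → K₀ ≤ K → K ≤ N → C * N ^ (f.natDegree - 1) ≤ H → H ≤ B * N ^ f.natDegree →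
      ∀ M : ℤ, |M| ≤ B * N ^ f.natDegree → ∀ g : ℝ[X], g.natDegree ≤ f.natDegree → ∀ q a : ℕ, 1 ≤ q →
        ∑ i ∈ Icc 1 H, ∑ x ∈ Icc 1 N, ‖S lam f g (M + i) q a x K‖ ≤ ε * K * N * H ∧
        ∑ i ∈ Icc 1 H, ∑ x ∈ Icc 1 N, ‖S mob f g (M + i) q a x K‖ ≤ ε * K * N * H := by
  obtain ⟨C₁, K₁, N₁, h1⟩ := one_function lam_le lam_base f hf B ε hε
  obtain ⟨C₂, K₂, N₂, h2⟩ := one_function mob_le mob_base f hf B ε hε
  refine ⟨max C₁ C₂, max K₁ K₂, max N₁ N₂, fun N K H hN hK hKN hH hHB M hM g hg q a hq => ⟨?_, ?_⟩⟩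
  · exact h1 N K H ((le_max_left _ _).trans hN) ((le_max_left _ _).trans hK) hKN
      ((Nat.mul_le_mul_right _ (le_max_left _ _)).trans hH) hHB M hM g hg q a hq
  · exact h2 N K H ((le_max_right _ _).trans hN) ((le_max_right _ _).trans hK) hKN
      ((Nat.mul_le_mul_right _ (le_max_right _ _)).trans hH) hHB M hM g hg q a hq

end Pool.Agent.Results.MP_892e4c_nt.ShortWindowsAlmostAllShifts
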